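import Pool.Agent.H90.EH.Targets

set_option autoImplicit false

namespace Pool.Agent.H51.EH

open Pool.Agent.H90.EH

theorem pf_STP : T_STP := by
  intro V _ _ Λ ht S b hb hb1 hpos hadd hfin
  have hcnt : ∀ (T : Set V) (m : ℕ), PowerSeries.coeff m (ser Λ ht T) = (cnt Λ ht T m : ℤ) := by
    intro T m
    simp [ser]
  ext m
  rw [sub_mul, one_mul, map_sub, hcnt, hcnt]
  rcases Nat.eq_zero_or_pos m with rfl | hm
  · rw [PowerSeries.coeff_zero_X_mul, sub_zero]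
    congr 1
    unfold cnt
    congr 1
    ext x
    constructor
    · rintro ⟨h1, h2, h3⟩
      refine ⟨⟨h1, fun h4 => ?_⟩, h2, h3⟩
      have h5 := hpos _ h4
      rw [map_sub, h3, hb1] at h5
      norm_num at h5
    · rintro ⟨⟨h1, _⟩, h2, h3⟩
      exact ⟨h1, h2, h3⟩
  · obtain ⟨m, rfl⟩ : ∃ k, m = k + 1 := ⟨m - 1, by omega⟩
    rw [PowerSeries.coeff_succ_X_mul, hcnt]
    unfold cnt
    have h1 : {x | x ∈ S ∧ x ∈ Λ ∧ ht x = ((m + 1 : ℕ) : ℚ)} =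
        (fun x => x + b) '' {x | x ∈ S ∧ x ∈ Λ ∧ ht x = (m : ℚ)} ∪
          {x | x ∈ {x | x ∈ S ∧ x - b ∉ S} ∧ x ∈ Λ ∧ ht x = ((m + 1 : ℕ) : ℚ)} := by
      ext x
      constructor
      · rintro ⟨h1, h2, h3⟩
        by_cases h4 : x - b ∈ S
        · refine Or.inl ⟨x - b, ⟨h4, Λ.sub_mem h2 hb, ?_⟩, sub_add_cancel x b⟩
          rw [map_sub, h3, hb1]
          push_cast
          ring
        · exact Or.inr ⟨⟨h1, h4⟩, h2, h3⟩
      · rintro (⟨y, ⟨h1, h2, h3⟩, rfl⟩ | ⟨⟨h1, _⟩, h2, h3⟩)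
        · refine ⟨hadd y h1, Λ.add_mem h2 hb, ?_⟩
          simp only [map_add, h3, hb1]
          push_cast
          ring
        · exact ⟨h1, h2, h3⟩
    have h2 : Disjoint ((fun x => x + b) '' {x | x ∈ S ∧ x ∈ Λ ∧ ht x = (m : ℚ)})
        {x | x ∈ {x | x ∈ S ∧ x - b ∉ S} ∧ x ∈ Λ ∧ ht x = ((m + 1 : ℕ) : ℚ)} := by
      rw [Set.disjoint_left]
      rintro x ⟨y, ⟨hy, _⟩, rfl⟩ ⟨⟨_, h5⟩, _⟩
      apply h5
      simpa using hy
    have hf := hfin (m + 1)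
    rw [h1] at hf
    have h3 := Set.ncard_union_eq h2 (hf.subset Set.subset_union_left)
      (hf.subset Set.subset_union_right)
    rw [h1, h3, Set.ncard_image_of_injective _ (add_left_injective b)]
    push_cast
    ring

end Pool.Agent.H51.EH
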